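import Pool.Agent.CLSP.Join

/-!
Confluence of the semi-equational conditional term rewriting system `R` (linearized combinatory
logic with surjective pairing), Q1 of MP_a981ee_lc.
-/

namespace Pool.Agent.Results.MP_a981ee_lc.Confluence

open Pool.Agent.CLSP Relation

/-- The system `R` is confluent: if `t →* t₁` and `t →* t₂` then `t₁ →* u` and `t₂ →* u` for
some term `u`. -/
theorem result (t t₁ t₂ : Term) (h₁ : ReflTransGen Step t t₁) (h₂ : ReflTransGen Step t t₂) :
    ∃ u : Term, ReflTransGen Step t₁ u ∧ ReflTransGen Step t₂ u :=
  confluence h₁ h₂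

end Pool.Agent.Results.MP_a981ee_lc.Confluence
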